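import Pool.Agent.Y489.EN.Stm

/-!
# Project EN: short Jordan curves
-/

set_option autoImplicit false

open Filter Topology MeasureTheory Metric Set

namespace Pool.Agent.Y918.EN

open Pool.Agent.Y320.CM Pool.Agent.Y489.EN

theorem t_JOR : S_OPEN → S_CAP → S_JOR := by
  intro hopen hcap F hc hi A r d hr hd hsub hdiam
  have hA0 : A + (r : ℂ) ∈ sphere A r := by
    rw [mem_sphere, dist_eq_norm, add_sub_cancel_left, Complex.norm_real, Real.norm_eq_abs,
      abs_of_pos hr]
  set p : Sph := F (A + (r : ℂ)) with hp
  have hM := hcap p d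
  have hO : IsOpen (F '' ball A r) := hopen F hc hi A r (ball_subset_closedBall.trans hsub)
  have hD : IsClosed (F '' closedBall A r) :=
    ((isCompact_closedBall A r).image_of_continuousOn (hc.mono hsub)).isClosed
  have hOD : F '' ball A r ⊆ F '' closedBall A r := image_mono ball_subset_closedBall
  have hdisj : Disjoint (F '' ball A r) (F '' closedBall A r)ᶜ :=
    disjoint_compl_right_iff_subset.2 hOD
  have hcov : {x : Sph | d < dist p x} ⊆ F '' ball A r ∪ (F '' closedBall A r)ᶜ := by
    intro x hx
    by_cases hxD : x ∈ F '' closedBall A r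
    · left
      obtain ⟨z, hz, rfl⟩ := hxD
      rcases lt_or_eq_of_le (mem_closedBall.1 hz) with h | h
      · exact ⟨z, mem_ball.2 h, rfl⟩
      · have h1 := hdiam _ hA0 z (mem_sphere.2 h)
        have h2 : d < dist p (F z) := hx
        exact absurd h2 (not_lt.2 h1)
    · exact Or.inr hxD
  have tri : ∀ z w, F z ∉ {x : Sph | d < dist p x} → F w ∉ {x : Sph | d < dist p x} →
      dist (F z) (F w) ≤ 2 * d := by
    intro z w hz hw
    have hz' : dist p (F z) ≤ d := not_lt.1 hz
    have hw' : dist p (F w) ≤ d := not_lt.1 hw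
    calc dist (F z) (F w) ≤ dist (F z) p + dist p (F w) := dist_triangle _ _ _
      _ ≤ 2 * d := by
        rw [dist_comm (F z) p]
        linarith
  rcases IsPreconnected.subset_or_subset hO hD.isOpen_compl hdisj hcov hM with h | h
  · right
    have key : ∀ z ∈ ball (0 : ℂ) 1 \ closedBall A r, F z ∉ {x : Sph | d < dist p x} := by
      rintro z ⟨hz1, hz2⟩ hz
      obtain ⟨w, hw, hwz⟩ := h hz
      have hw1 : w ∈ closedBall A r := ball_subset_closedBall hw
      exact hz2 (hi (hsub hw1) hz1 hwz ▸ hw1)
    exact fun z hz w hw => tri z w (key z hz) (key w hw)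
  · left
    have key : ∀ z ∈ ball A r, F z ∉ {x : Sph | d < dist p x} := by
      intro z hz hz'
      exact h hz' ⟨z, ball_subset_closedBall hz, rfl⟩
    exact fun z hz w hw => tri z w (key z hz) (key w hw)

end Pool.Agent.Y918.EN
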